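import Pool.Agent.helper7.UL.Spec

/-! Row ul:SHW (helper17) -/

set_option autoImplicit false

namespace Pool.Agent.UL

theorem SHW_sh (R c b : ℕ) : (sh R c).testBit b = (c.testBit (b + 1) || (c.testBit b && decide (R + 3 = b))) := by
  unfold sh
  rw [Nat.testBit_or, Nat.testBit_shiftRight, Nat.testBit_and, Nat.testBit_two_pow, Nat.add_comm 1 b]

theorem SHW_bits (R c : ℕ) (h : marg R c = true) :
    c.testBit 1 = c.testBit 0 ∧ c.testBit 2 = c.testBit 0 ∧ c.testBit 3 = c.testBit 0 ∧
    c.testBit (R + 1) = c.testBit (R + 3) ∧ c.testBit (R + 2) = c.testBit (R + 3) ∧ c < 2 ^ (R + 4) := by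
  unfold marg at h
  rw [Bool.and_eq_true, Bool.or_eq_true, Bool.or_eq_true, beq_iff_eq, beq_iff_eq, beq_iff_eq, beq_iff_eq] at h
  obtain ⟨h1, h2⟩ := h
  have e : ∀ i, i < 4 → c.testBit i = (c &&& 15).testBit i := by
    intro i hi
    rw [Nat.testBit_and]
    have : (15 : ℕ).testBit i = true := by interval_cases i <;> rfl
    rw [this, Bool.and_true]
  have f : ∀ j, c.testBit (R + 1 + j) = (c >>> (R + 1)).testBit j := by
    intro j; rw [Nat.testBit_shiftRight]
  have hlt : c < 2 ^ (R + 4) := by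
    have h3 : c >>> (R + 1) < 8 := by rcases h2 with h2 | h2 <;> rw [h2] <;> norm_num
    rw [Nat.shiftRight_eq_div_pow, Nat.div_lt_iff_lt_mul (by positivity)] at h3
    calc c < 8 * 2 ^ (R + 1) := h3
      _ = 2 ^ (R + 4) := by ring
  have f0 := f 0
  have f1 := f 1
  have f2 := f 2
  rw [Nat.add_zero] at f0
  rw [show R + 1 + 1 = R + 2 from rfl] at f1
  rw [show R + 1 + 2 = R + 3 from rfl] at f2
  rw [e 0 (by norm_num), e 1 (by norm_num), e 2 (by norm_num), e 3 (by norm_num), f0, f1, f2]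
  refine ⟨?_, ?_, ?_, ?_, ?_, hlt⟩
  all_goals first
    | (rcases h1 with h1 | h1 <;> rw [h1] <;> rfl)
    | (rcases h2 with h2 | h2 <;> rw [h2] <;> rfl)

theorem SHW : SHW_stmt := by
  intro R c hR hm
  obtain ⟨b1, b2, b3, r1, r2, hlt⟩ := SHW_bits R c hm
  have htop : c.testBit (R + 4) = false := Nat.testBit_lt_two_pow hlt
  have s0 : (sh R c).testBit 0 = c.testBit 0 := by
    rw [SHW_sh]
    have : decide (R + 3 = 0) = false := by simp
    rw [this, Bool.and_false, Bool.or_false, b1]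
  have s3 : (sh R c).testBit (R + 3) = c.testBit (R + 3) := by
    rw [SHW_sh, show R + 3 + 1 = R + 4 from rfl, htop]; simp
  have sm : ∀ b, b < R + 3 → (sh R c).testBit b = c.testBit (b + 1) := by
    intro b hb
    rw [SHW_sh]
    have : decide (R + 3 = b) = false := by simp; omega
    rw [this, Bool.and_false, Bool.or_false]
  refine ⟨⟨hlt, b1, b2, r1, r2⟩, ⟨?_, ?_, ?_, ?_, ?_⟩, ?_, s0, s3⟩
  · unfold sh
    refine Nat.or_lt_two_pow ?_ ?_
    · exact lt_of_le_of_lt (Nat.shiftRight_le _ _) hlt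
    · exact Nat.and_lt_two_pow _ (Nat.pow_lt_pow_right (by norm_num) (by omega))
  · rw [sm 1 (by omega), s0, b2]
  · rw [sm 2 (by omega), s0, b3]
  · rw [sm (R + 1) (by omega), s3, show R + 1 + 1 = R + 2 from rfl, r2]
  · rw [sm (R + 2) (by omega), s3]
  · intro B
    unfold wv
    by_cases hB : B < -(R : ℤ)
    · rw [if_pos hB, s0]
      by_cases hB1 : B + 1 < -(R : ℤ)
      · rw [if_pos hB1]
      · rw [if_neg hB1, if_neg (by omega)]
        have : (B + 1 + (R : ℤ)).toNat = 0 := by omega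
        rw [this]
    · rw [if_neg hB, if_neg (show ¬ (B + 1 < -(R : ℤ)) by omega)]
      by_cases hB3 : 3 < B
      · rw [if_pos hB3, if_pos (by omega), s3]
      · rw [if_neg hB3]
        by_cases hB4 : 3 < B + 1
        · rw [if_pos hB4]
          have : (B + (R : ℤ)).toNat = R + 3 := by omega
          rw [this, s3]
        · rw [if_neg hB4, sm _ (by omega)]
          have : (B + 1 + (R : ℤ)).toNat = (B + (R : ℤ)).toNat + 1 := by omega
          rw [this]

end Pool.Agent.UL
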